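import Pool.Agent.MP_c69980_ag.H43.Spec2

/-!
Every derivation over the field of definition acts on every point as a tangent vector.
-/

set_option autoImplicit false

namespace Pool.Agent.MP_c69980_ag.H43

open MvPolynomial H60 Finset Filter Topology

variable {t a M : ℕ}

lemma Ex_dense {g : ℕ} {f : (Fin g → ℂ) → ℂ} (hf : Differentiable ℂ f) (h : ∃ q, f q ≠ 0) :
    Dense {q | f q ≠ 0} := by
  obtain ⟨q₀, h0⟩ := h
  intro q
  rw [mem_closure_iff_frequently]
  intro h1
  have h2 : ∀ᶠ x in 𝓝 q, f x = 0 := h1.mono fun x hx => not_not.1 hx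
  have c : Differentiable ℂ fun z : ℂ => q + z • (q₀ - q) := by fun_prop
  have h3 : ∀ᶠ z in 𝓝 (0 : ℂ), f (q + z • (q₀ - q)) = 0 :=
    (c.continuous.tendsto' 0 q (by simp)).eventually h2
  have h4 := AnalyticOnNhd.eq_of_eventuallyEq (z₀ := 0)
    (f := fun z : ℂ => f (q + z • (q₀ - q))) (g := 0)
    ((hf.comp c).differentiableOn.analyticOnNhd isOpen_univ) analyticOnNhd_const h3
  exact h0 (by simpa using congrFun h4 1)

lemma Ex_baire {g : ℕ} {ι : Type} [Countable ι] (f : ι → (Fin g → ℂ) → ℂ)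
    (hf : ∀ i, Differentiable ℂ (f i)) (h : ∀ i, ∃ q, f i q ≠ 0) : ∃ q, ∀ i, f i q ≠ 0 := by
  obtain ⟨q, hq⟩ := (dense_iInter_of_isOpen (f := fun i => {q | f i q ≠ 0})
    (fun i => isOpen_ne_fun (hf i).continuous continuous_const)
    fun i => Ex_dense (hf i) (h i)).nonempty
  exact ⟨q, Set.mem_iInter.1 hq⟩

lemma Ex_chain {g : ℕ} {ι : Type} [Fintype ι] {y : (Fin g → ℂ) → ι → ℂ} {q : Fin g → ℂ}
    (h : ∀ x, DifferentiableAt ℂ (fun q => y q x) q) (P : MvPolynomial ι ℂ) :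
    DifferentiableAt ℂ (fun q => eval (y q) P) q ∧ ∀ v, fderiv ℂ (fun q => eval (y q) P) q v =
      ∑ x, eval (y q) (pderiv x P) * fderiv ℂ (fun q => y q x) q v := by
  classical
  induction P using MvPolynomial.induction_on with
  | C c => simp
  | add p r hp hr =>
    simp only [map_add, add_mul, sum_add_distrib]
    refine ⟨hp.1.add hr.1, fun v => ?_⟩
    rw [fderiv_fun_add hp.1 hr.1, ContinuousLinearMap.add_apply, hp.2, hr.2]
  | mul_X p i hp =>
    simp only [map_mul, eval_X]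
    refine ⟨hp.1.mul (h i), fun v => ?_⟩
    rw [fderiv_fun_mul hp.1 (h i)]
    simp only [ContinuousLinearMap.add_apply, ContinuousLinearMap.smul_apply, hp.2, smul_eq_mul,
      Derivation.leibniz, pderiv_X, map_add, map_mul, eval_X, add_mul, sum_add_distrib, mul_sum,
      Pi.single_apply]
    congr 1
    · simp [apply_ite, ite_mul]
    · exact sum_congr rfl fun _ _ => by ring

variable {w : Fin M → Option (Fin t)} {Θ : Pt t a → Fin M → ℂ} {PP : PT M t a} {k : Subfield ℂ}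
  {β : Cht M t}

/-- A generic point of the chart. -/
def ExGen (w : Fin M → Option (Fin t)) (Θ : Pt t a → Fin M → ℂ) (k : Subfield ℂ) (β : Cht M t)
    (q : Pt t a) : Prop := Ch w β (Θ q) ∧ ∀ P : CP M t, Cf k P → eval (co β (Θ q)) P = 0 →
  ∀ q', Ch w β (Θ q') → eval (co β (Θ q')) P = 0

lemma Ex_gen (h3 : SHom) (hol : Differentiable ℂ Θ) (hk : Countable k) (h0 : Ch w β (Θ 0))
    (p : Pt t a) : ∃ q, ExGen w Θ k β q ∧ ExGen w Θ k β (q - p) := by
  have d : ∀ c, Differentiable ℂ fun q => Θ q c := differentiable_pi.1 hol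
  have key : ∀ P : MvPolynomial (CI M t) k, ∃ f : Pt t a → ℂ, Differentiable ℂ f ∧
      ∀ q, f q ≠ 0 ↔ Ch w β (Θ q) ∧ eval (co β (Θ q)) (map k.subtype P) ≠ 0 := fun P => by
    obtain ⟨H, -, -, hH⟩ := h3 M (CI M t) Prod.fst (fun x => β x.2) (map k.subtype P) _ le_rfl
    refine ⟨fun q => (∏ o, Θ q (β o)) * eval (Θ q) H, Differentiable.mul (by fun_prop)
      fun q => (Ex_chain (fun c => d c q) H).1, fun q => ?_⟩
    rw [mul_ne_zero_iff, prod_ne_zero_iff]
    refine and_congr_left_iff.2 (fun _ => ⟨fun h o => ⟨(h0 o).1, h o (mem_univ o)⟩,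
      fun h o _ => (h o).2⟩) |>.trans (and_congr_right fun h => ?_)
    have e : eval (Θ q) H = _ * eval (co β (Θ q)) (map k.subtype P) :=
      hH ℂ (Θ q) fun x => (h x.2).2
    rw [e, mul_ne_zero_iff, and_iff_right]
    exact pow_ne_zero _ (prod_ne_zero_iff.2 fun x _ => (h x.2).2)
  choose f f1 f2 using key
  have : Countable (MvPolynomial (CI M t) k) := by
    rw [← Cardinal.mk_le_aleph0_iff]
    exact cardinalMk_le_max.trans
      (sup_le (sup_le Cardinal.mk_le_aleph0 Cardinal.mk_le_aleph0) le_rfl)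
  obtain ⟨q, hq⟩ := Ex_baire (ι := {P // ∃ q, f P q ≠ 0} × Bool)
    (fun i q => f i.1.1 (q - if i.2 then p else 0))
    (fun i => (f1 _).comp (differentiable_id.sub_const _)) fun i => by
      obtain ⟨q, hq⟩ := i.1.2
      exact ⟨q + if i.2 then p else 0, by rwa [add_sub_cancel_right]⟩
  have G : ∀ b : Bool, ExGen w Θ k β (q - if b then p else 0) := fun b =>
    ⟨((f2 _ _).1 (hq (⟨1, 0, (f2 _ _).2 ⟨h0, by simp⟩⟩, b))).1, fun P hP e q' h' => by
      obtain ⟨P', rfl⟩ := cf_iff.1 hP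
      by_contra n
      exact ((f2 _ _).1 (hq (⟨P', q', (f2 _ _).2 ⟨h', n⟩⟩, b))).2 e⟩
  exact ⟨q, by simpa using G false, by simpa using G true⟩

lemma Ex_dir (h1 : SExt) (hol : Differentiable ℂ Θ) (der : DerF w Θ PP) {q : Pt t a}
    (hq : ExGen w Θ k β q) (v : Pt t a) : ∃ D : Der, Kill k D ∧ Tan Θ D q v := by
  classical
  have d : ∀ c, DifferentiableAt ℂ (fun q => Θ q c) q := fun c => differentiableAt_pi.1 (hol q) c
  have dc : ∀ x, DifferentiableAt ℂ (fun q => co β (Θ q) x) q := fun x => by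
    simp only [co, div_eq_mul_inv]
    exact (d _).mul ((d _).inv (hq.1 _).2)
  have ev : ∀ᶠ q' in 𝓝 q, Ch w β (Θ q') := eventually_all.2 fun o =>
    ((d _).continuousAt.eventually_ne (hq.1 o).2).mono fun _ h => ⟨(hq.1 o).1, h⟩
  obtain ⟨D, hD⟩ := h1.1 (MvPolynomial (CI M t) k) ((eval (co β (Θ q))).comp (map k.subtype))
    { toFun := fun P => ∑ x, eval (co β (Θ q)) (pderiv x (map k.subtype P)) *
        vf (PP β) v (co β (Θ q)) x
      map_zero' := by simp
      map_add' := fun P Q => by simp only [map_add, add_mul, sum_add_distrib] }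
    (fun P Q => by
      simp only [AddMonoidHom.coe_mk, ZeroHom.coe_mk, map_mul, Derivation.leibniz, map_add,
        smul_eq_mul, add_mul, sum_add_distrib, mul_sum, RingHom.comp_apply, mul_assoc])
    (fun P hP => by
      have e : (fun q' => eval (co β (Θ q')) (map k.subtype P)) =ᶠ[𝓝 q] fun _ => 0 :=
        ev.mono fun q' h => hq.2 _ (cf_map P) hP q' h
      have e2 := (Ex_chain dc (map k.subtype P)).2 v
      rw [e.fderiv_eq] at e2
      simp only [der β q v _ hq.1] at e2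
      simpa using e2.symm)
  refine ⟨D, fun c hc => by simpa using hD (C ⟨c, hc⟩), (tan_iff hol der hq.1).2 fun x => ?_⟩
  simpa [Pi.single_apply, apply_ite] using hD (X x)

lemma Ex_at (h1 : SExt) (h2 : SDep) (hol : Differentiable ℂ Θ) (der : DerF w Θ PP)
    (n : Nrm w Θ PP) {q : Pt t a} (hq : ExGen w Θ k β q) (hd : ¬ Ind k (t + a + 1) (rat (Θ q)))
    {D : Der} (hD : Kill k D) : ∃ v, Tan Θ D q v := by
  choose E e1 e2 using fun i : Fin (t + a) => Ex_dir h1 hol der hq (Pi.single i 1)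
  obtain ⟨c, c0, hc⟩ := h2 k (t + a) _ (Fin.cons D E) hd (Fin.cases hD e1)
  simp only [Fin.sum_univ_succ, Fin.cons_zero, Fin.cons_succ] at hc
  have T : ∀ l : Fin (t + a) → ℂ, Tan Θ (∑ i, l i • E i) q l := fun l => by
    have := Tan.sum univ fun i _ => (e2 i).smul (l i)
    rwa [show ∑ i, l i • (Pi.single i 1 : Pt t a) = l by
      ext j
      simp [Finset.sum_apply, Pi.single_apply]] at this
  by_cases h : c 0 = 0
  · refine absurd (funext (Fin.cases h fun i => congrFun (n.imm β q (fun i => c i.succ) hq.1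
      fun x => ?_) i)) c0
    rw [← (tan_iff hol der hq.1).1 (T _) x, der_sum_apply]
    simpa [h] using hc _ (co_mem β _ x)
  · refine ⟨_, (T fun i => -(c 0)⁻¹ * c i.succ).congr fun x hx => ?_⟩
    rw [der_sum_apply]
    simp only [Derivation.smul_apply, smul_eq_mul, mul_assoc, ← mul_sum]
    rw [eq_neg_of_add_eq_zero_right (hc x hx)]
    field_simp

theorem sEx (h1 : SExt) (h2 : SDep) (h3 : SHom) : SEx := by
  intro t a M w Θ PP k g der n hk _ sub hd D p hD
  obtain ⟨β, hβ⟩ := exists_ch (g.blk 0)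
  obtain ⟨q, q1, q2⟩ := Ex_gen h3 g.hol hk hβ p
  obtain ⟨v, hv⟩ := Ex_at h1 h2 g.hol der n q1 (hd _) hD
  obtain ⟨v', hv'⟩ := Ex_at h1 h2 g.hol der n q2 (hd _) hD
  exact ⟨_, sub_sub_cancel q p ▸ sub.2.2 D _ _ v v' hD hv hv'⟩

end Pool.Agent.MP_c69980_ag.H43
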